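import Pool.Agent.Helper5_PM.M161

/-!
Almost every convex polygon is determined by its Dirichlet spectrum among all bounded convex
domains.
-/

set_option autoImplicit false

namespace Pool.Agent.Results.MP_5b0138_an.AlmostAllPolygons

open MeasureTheory Pool.Agent.H16Iso
open Pool.Agent.H1Gen (CCW poly)

/-- For every `n ≥ 3` and almost every strictly convex `n`-gon `poly v`: every bounded convex domain
with the same Dirichlet eigenvalues as `poly v` is congruent to `poly v`. -/
theorem result : ∀ n : ℕ, 3 ≤ n → ∀ᵐ v : Fin n → ℂ, CCW v →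
    ∀ Ω : Set ℂ, IsOpen Ω → Convex ℝ Ω → Bornology.IsBounded Ω → Ω.Nonempty →
      (∀ k, dirEig Ω k = dirEig (poly v) k) → Congruent Ω (poly v) := by
  intro n hn
  filter_upwards [Pool.Agent.XQ.done n hn] with v hv hc Ω ho hcv hb hne h
  obtain ⟨N, h2⟩ := hv hc
  exact h2 Ω ho hcv hb hne (Or.inl h)

end Pool.Agent.Results.MP_5b0138_an.AlmostAllPolygons
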