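import Pool.Agent.Helper76_QUX.DONEX

/-!
Convex polygons with at most four vertices, and bounded convex domains with the same Dirichlet
spectrum.
-/

set_option autoImplicit false

namespace Pool.Agent.Results.MP_5b0138_an.FourVertices

open Pool.Agent.H16Iso
open Pool.Agent.H1Gen (det CCW poly)
open scoped EuclideanGeometry

/-- `P` is a convex quadrilateral `a b c d` without parallel sides, the diagonal `a c` bisects the
angle at `a`, and the angles at `b` and at `d` are acute -/
def Exceptional (P : Set ℂ) : Prop := ∃ a b c d : ℂ, CCW ![a, b, c, d] ∧ P = poly ![a, b, c, d] ∧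
  det (b - a) (d - c) ≠ 0 ∧ det (c - b) (a - d) ≠ 0 ∧
  ∠ b a c = ∠ c a d ∧ ∠ a b c < Real.pi / 2 ∧ ∠ c d a < Real.pi / 2

/-- Let `P` be a convex polygon with at most four vertices and let `Ω` be a bounded convex domain
with the same Dirichlet eigenvalues (with multiplicity). If `Ω` is a convex polygon with at most
four vertices, or if `P` is not exceptional, then `P` and `Ω` are congruent. -/
theorem result (F : Finset ℂ) (Ω : Set ℂ) (h4 : F.card ≤ 4) (hF : ¬ Collinear ℝ (F : Set ℂ))
    (ho : IsOpen Ω) (hc : Convex ℝ Ω) (hb : Bornology.IsBounded Ω) (hne : Ω.Nonempty)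
    (h : ∀ k, dirEig (interior (convexHull ℝ (F : Set ℂ))) k = dirEig Ω k)
    (hcase : (∃ F' : Finset ℂ, F'.card ≤ 4 ∧ Ω = interior (convexHull ℝ (F' : Set ℂ))) ∨
      ¬ Exceptional (interior (convexHull ℝ (F : Set ℂ)))) :
    Congruent (interior (convexHull ℝ (F : Set ℂ))) Ω :=
  Pool.Agent.QUD.H76X.donex F Ω h4 hF ho hc hb hne h hcase

end Pool.Agent.Results.MP_5b0138_an.FourVertices
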