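import Pool.Agent.KUF.Main

/-!
A generic bounded plane domain with smooth boundary, with any number of holes, is determined up to
congruence by any tail of its Dirichlet spectrum among all bounded plane domains with smooth
boundary.
-/

namespace Pool.Agent.Results.MP_5b0138_an.GenericSmoothDomains

open Set Filter Pool.Agent.H16Iso Pool.Agent.KUF

/-- `Domains m` is the space of the bounded plane domains with smooth boundary and `m` holes, given
by parametrisations of the boundary curves, with the `C^∞` topology; the domains `c.region`, for all
`m` and all `c : Domains m`, are exactly the bounded domains with smooth boundary.  For every `m`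
the space `Domains m` is a Baire space and has a dense `G_δ` subset `D` such that for `c ∈ D` every
bounded domain `Ω` with smooth boundary (with any number of holes) whose Dirichlet eigenvalues,
counted with multiplicity, agree with those of `c.region` from some index on is congruent to
`c.region`. -/
theorem result :
    (∀ (m : ℕ) (c : Domains m), SmoothDomain c.region) ∧
    (∀ Ω : Set ℂ, SmoothDomain Ω → ∃ (m : ℕ) (c : Domains m), c.region = Ω) ∧
    ∀ m : ℕ, BaireSpace (Domains m) ∧ ∃ D : Set (Domains m), IsGδ D ∧ Dense D ∧
      ∀ c ∈ D, ∀ Ω : Set ℂ, SmoothDomain Ω →
        (∀ᶠ n in atTop, dirEig c.region n = dirEig Ω n) → Congruent c.region Ω :=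
  main

end Pool.Agent.Results.MP_5b0138_an.GenericSmoothDomains
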