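import Pool.Agent.Helper2_Transp.Weak

/-!
# MP_5b0138_an: transplantation never produces isospectral plane domains with smooth boundary

All known pairs of isospectral non-congruent plane domains are produced by transplantation: an
operator `T f = ∑ c_φ • (f ∘ φ)`, a finite sum over plane isometries `φ` with coefficient functions
`c_φ`, that intertwines the two Dirichlet Laplacians.  We prove that between bounded domains with
smooth boundary every such operator is trivial: it is a constant-coefficient combination of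
compositions with isometries that map one domain onto the other.  In particular, a nonzero
transplantation exists only between congruent domains.
-/

open Complex MeasureTheory Set Filter Topology InnerProductSpace Laplacian
open scoped ContDiff

namespace Pool.Agent.Results.MP_5b0138_an.TransplantRigid

/-- A bounded domain of the plane with smooth boundary: open, connected, bounded, and near each
boundary point `x` it is the positivity set of a smooth function with nonzero differential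
at `x`. -/
structure SmoothDomain (Ω : Set ℂ) : Prop where
  isOpen : IsOpen Ω
  isConnected : IsConnected Ω
  isBounded : Bornology.IsBounded Ω
  smooth : ∀ x ∈ frontier Ω, ∃ (V : Set ℂ) (ψ : ℂ → ℝ), IsOpen V ∧ x ∈ V ∧ ContDiffOn ℝ ∞ ψ V ∧
    fderiv ℝ ψ x ≠ 0 ∧ ∀ z ∈ V, (z ∈ Ω ↔ 0 < ψ z)

/-- `f` is smooth up to the boundary of `Ω` and vanishes on the boundary; outside `Ω` it is
extended by zero. -/
def Admissible (Ω : Set ℂ) (f : ℂ → ℝ) : Prop :=
  Continuous f ∧ (∀ z, z ∉ Ω → f z = 0) ∧ ∃ g : ℂ → ℝ, ContDiff ℝ ∞ g ∧ ∀ z ∈ Ω, f z = g z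

/-- The transplantation operator with isometries `Φ` and coefficient functions `c`. -/
noncomputable def transplant (Φ : Finset (ℂ ≃ᵢ ℂ)) (c : (ℂ ≃ᵢ ℂ) → ℂ → ℝ) (f : ℂ → ℝ) (x : ℂ) :
    ℝ :=
  ∑ φ ∈ Φ, c φ x * f (φ x)

/-- `h` satisfies the Dirichlet condition on `Ω` and `Δ h = k` in `Ω` in the sense of
distributions. -/
def DirichletLaplacian (Ω : Set ℂ) (h k : ℂ → ℝ) : Prop :=
  Continuous h ∧ (∀ x, x ∉ Ω → h x = 0) ∧
    ∀ χ : ℂ → ℝ, ContDiff ℝ ∞ χ → HasCompactSupport χ → tsupport χ ⊆ Ω →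
      ∫ x, h x * Δ χ x = ∫ x, k x * χ x

/-- The operator intertwines the Dirichlet Laplacians of `Ω` and `Ω'`: for every `f` smooth up to
the boundary of `Ω` and vanishing there, `T f` (almost everywhere on `Ω'`) satisfies the Dirichlet
condition on `Ω'` and `Δ (T f) = T (Δ f)`, where `Δ f` is the classical Laplacian in `Ω`,
extended by zero. -/
def Intertwines (Ω Ω' : Set ℂ) (Φ : Finset (ℂ ≃ᵢ ℂ)) (c : (ℂ ≃ᵢ ℂ) → ℂ → ℝ) : Prop :=
  ∀ f, Admissible Ω f → ∃ h, DirichletLaplacian Ω' h (transplant Φ c (Ω.indicator (Δ f))) ∧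
    ∀ᵐ x, x ∈ Ω' → h x = transplant Φ c f x

/-- A nonzero transplantation between bounded plane domains with smooth boundary exists only if
they are congruent, and it is then a combination with constant coefficients of compositions with
isometries carrying `Ω'` onto `Ω`. -/
theorem result {Ω Ω' : Set ℂ} (hΩ : SmoothDomain Ω) (hΩ' : SmoothDomain Ω')
    (Φ : Finset (ℂ ≃ᵢ ℂ)) (c : (ℂ ≃ᵢ ℂ) → ℂ → ℝ) (hT : Intertwines Ω Ω' Φ c)
    (hne : ∃ f, Admissible Ω f ∧ ¬ ∀ᵐ x, x ∈ Ω' → transplant Φ c f x = 0) :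
    (∃ φ ∈ Φ, φ '' Ω' = Ω) ∧
      ∃ γ : (ℂ ≃ᵢ ℂ) → ℝ, (∀ φ, γ φ ≠ 0 → φ '' Ω' = Ω) ∧
        ∀ f, Admissible Ω f →
          ∀ᵐ x, x ∈ Ω' → transplant Φ c f x = ∑ φ ∈ Φ, γ φ * f (φ x) := by
  classical
  have T : Helper2Transp.TrW Ω Ω' Φ c := by
    refine ⟨hΩ.isOpen, hΩ'.isOpen, fun f hf => ?_⟩
    obtain ⟨h, ⟨h1, h2, h3⟩, h4⟩ := hT f hf
    exact ⟨h, h1, h2, h4, h3⟩
  have hs : ∀ x ∈ frontier Ω, Helper2Transp.SmoothLoc Ω x := hΩ.smooth
  have hs' : ∀ x ∈ frontier Ω', Helper2Transp.LocC1 Ω' x := fun x hx =>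
    Helper2Transp.SmoothLoc.locC1 (hΩ'.smooth x hx)
  have S := T.toTr hs hs'
  set κ : (ℂ ≃ᵢ ℂ) → ℂ → ℝ := fun φ => Helper2Transp.kw (c φ) with hκ
  have hcong : ∀ φ ∈ Φ, (Helper2Transp.Act Ω Ω' κ φ).Nonempty →
      φ '' Ω' = Ω ∧ ∃ γ : ℝ, γ ≠ 0 ∧ ∀ x ∈ Ω', κ φ x = γ := fun φ hφ h =>
    S.congruent hΩ.isBounded hΩ'.isBounded hΩ.isConnected.isPreconnected
      hΩ'.isConnected.isPreconnected hφ h
  -- the constants
  have hγ : ∀ φ : ℂ ≃ᵢ ℂ, ∃ γ : ℝ, (γ ≠ 0 → φ '' Ω' = Ω) ∧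
      (φ ∈ Φ → ∀ x ∈ Ω', φ x ∈ Ω → κ φ x = γ) := by
    intro φ
    by_cases h : φ ∈ Φ ∧ (Helper2Transp.Act Ω Ω' κ φ).Nonempty
    · obtain ⟨h1, γ, -, h3⟩ := hcong φ h.1 h.2
      exact ⟨γ, fun _ => h1, fun _ x hx _ => h3 x hx⟩
    · refine ⟨0, fun h' => absurd rfl h', fun hφ x hx hφx => ?_⟩
      by_contra hcon
      exact h ⟨hφ, x, hx, hφx, hcon⟩
  choose γ hγ1 hγ2 using hγ
  have hform : ∀ f, Admissible Ω f →
      ∀ᵐ x, x ∈ Ω' → transplant Φ c f x = ∑ φ ∈ Φ, γ φ * f (φ x) := by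
    intro f hf
    filter_upwards [T.ae_eq f hf.2.1] with x hx hxΩ'
    unfold transplant
    rw [hx hxΩ']
    refine Finset.sum_congr rfl fun φ hφ => ?_
    by_cases h1 : φ x ∈ Ω
    · have h2 := hγ2 φ hφ x hxΩ' h1
      rw [← h2]
    · rw [hf.2.1 _ h1, mul_zero, mul_zero]
  refine ⟨?_, γ, hγ1, hform⟩
  by_contra hcon
  push Not at hcon
  obtain ⟨f, hf, hnz⟩ := hne
  apply hnz
  filter_upwards [hform f hf] with x hx hxΩ'
  rw [hx hxΩ']
  refine Finset.sum_eq_zero fun φ hφ => ?_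
  have : γ φ = 0 := by
    by_contra h
    exact hcon φ hφ (hγ1 φ h)
  rw [this, zero_mul]

end Pool.Agent.Results.MP_5b0138_an.TransplantRigid
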